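import Pool.Agent.N311.SH.Stm

/-! Project SH (helper311), page MP_c6d336_gt: the parts TR1, TR2 (helper900). -/

set_option autoImplicit false
open Set Metric Filter Topology MeasureTheory

namespace Pool.Agent.N900.SH

open Pool.Agent.N311.SH

/-- the path component of the identity consists of the maps isotopic to the identity -/
theorem tr1 : S_TR1 := by
  intro X _ _ _ A
  let _i : TopologicalSpace (X ≃ₜ X) := homeoTop X
  have hind : Continuous (fun h : X ≃ₜ X => (⟨h, h.continuous⟩ : C(X, X))) :=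
    continuous_induced_dom
  constructor
  · rintro ⟨γ⟩
    refine ⟨fun t => γ t, ?_, γ.source, γ.target⟩
    exact ContinuousMap.continuous_uncurry_of_continuous
      ⟨fun t => (⟨γ t, (γ t).continuous⟩ : C(X, X)), hind.comp γ.continuous⟩
  · rintro ⟨F, hF, h0, h1⟩
    have hc : Continuous F := by
      refine continuous_induced_rng.2 ?_
      exact ContinuousMap.continuous_of_continuous_uncurry _ hF
    exact ⟨{ toFun := F, continuous_toFun := hc, source' := h0, target' := h1 }⟩

/-- conjugation by a homeomorphism -/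
def cnj {X Y : Type} [TopologicalSpace X] [TopologicalSpace Y] (e : X ≃ₜ Y) :
    (X ≃ₜ X) →* (Y ≃ₜ Y) where
  toFun A := (e.symm.trans A).trans e
  map_one' := by
    ext y
    simp
  map_mul' A B := by
    ext y
    simp [Homeomorph.mul_apply]

theorem cnj_apply {X Y : Type} [TopologicalSpace X] [TopologicalSpace Y] (e : X ≃ₜ Y) (A : X ≃ₜ X)
    (y : Y) : cnj e A y = e (A (e.symm y)) := rfl

theorem cnj_cnj {X Y : Type} [TopologicalSpace X] [TopologicalSpace Y] (e : X ≃ₜ Y) (A : Y ≃ₜ Y) :
    cnj e (cnj e.symm A) = A := by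
  ext y
  simp [cnj_apply]

theorem cnj_iso {X Y : Type} [TopologicalSpace X] [TopologicalSpace Y] (e : X ≃ₜ Y) (A : X ≃ₜ X)
    (h : Iso X A) : Iso Y (cnj e A) := by
  obtain ⟨F, hF, h0, h1⟩ := h
  refine ⟨fun t => cnj e (F t), ?_, ?_, ?_⟩
  · show Continuous fun p : unitInterval × Y => e (F p.1 (e.symm p.2))
    exact e.continuous.comp (hF.comp (continuous_fst.prodMk (e.symm.continuous.comp continuous_snd)))
  · show cnj e (F 0) = 1
    rw [h0, map_one]
  · show cnj e (F 1) = _
    rw [h1]

/-- transport of the property `P` along a homeomorphism -/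
theorem tr2 (h : S_TR1) : S_TR2 := by
  intro X Y _ _ _ _ _ _ e n hP A hA B hB hA1 hB1
  have hne : ∀ C : Y ≃ₜ Y, C ≠ 1 → cnj e.symm C ≠ 1 := by
    intro C hC hC1
    apply hC
    rw [← cnj_cnj e C, hC1, map_one]
  obtain ⟨H, hH⟩ := hP (cnj e.symm A) ((h X _).2 (cnj_iso _ _ ((h Y _).1 hA))) (cnj e.symm B)
    ((h X _).2 (cnj_iso _ _ ((h Y _).1 hB))) (hne A hA1) (hne B hB1)
  refine ⟨fun i => cnj e (H i), ?_⟩
  have h2 := congrArg (cnj e) hH
  rw [cnj_cnj, map_list_prod, List.map_ofFn] at h2
  rw [h2]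
  congr 2

end Pool.Agent.N900.SH
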